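import Mathlib
import Pool.Agent.R706.LeeRing

/-!
# Weakly Lee `n`-coherent rings need not be Lee `n`-coherent
-/

namespace Pool.Agent.Results.MP_0b9bd1_al.WeaklyNotLee

open CategoryTheory Pool.Agent.R706.Lee Pool.Agent.R706.Lee.QR

/-- `R` is (left) Lee `n`-coherent: every finitely generated submodule `K` of some `R^m`, `m ≥ 1`,
of projective dimension at most `n - 1` is finitely presented. -/
def LeeCoherent (n : ℕ) (R : Type) [Ring R] : Prop :=
  ∀ m : ℕ, 1 ≤ m → ∀ K : Submodule R (Fin m → R), K.FG →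
    HasProjectiveDimensionLE (ModuleCat.of R K) (n - 1) → Module.FinitePresentation R K

/-- `R` is weakly (left) Lee `n`-coherent: every finitely generated left ideal `I` of `R` of
projective dimension at most `n - 1` is finitely presented. -/
def WeaklyLeeCoherent (n : ℕ) (R : Type) [Ring R] : Prop :=
  ∀ I : Submodule R R, I.FG → HasProjectiveDimensionLE (ModuleCat.of R I) (n - 1) →
    Module.FinitePresentation R I

/-! ### Generalities -/

section general
variable {R : Type} [Ring R]

theorem projective_of {P : Type} [AddCommGroup P] [Module R P] [Module.Projective R P] :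
    Projective (ModuleCat.of R P) := by
  rw [← IsProjective.iff_projective]
  infer_instance

/-- dimension shifting -/
theorem pd_shift {P M : Type} [AddCommGroup P] [Module R P] [AddCommGroup M] [Module R M]
    [Module.Projective R P] (g : P →ₗ[R] M) (hg : Function.Surjective g) (n : ℕ) :
    HasProjectiveDimensionLE (ModuleCat.of R M) (n + 1) ↔
      HasProjectiveDimensionLE (ModuleCat.of R (LinearMap.ker g)) n :=
  (LinearMap.shortExact_shortComplexKer hg).hasProjectiveDimensionLT_X₃_iff n projective_of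

/-- the left ideal `Re`, as the set of `x` with `x e = x` -/
def Le (e : R) : Submodule R R where
  carrier := {x | x * e = x}
  zero_mem' := zero_mul e
  add_mem' := by
    intro a b ha hb
    show (a + b) * e = a + b
    rw [add_mul, ha, hb]
  smul_mem' := by
    intro r x hx
    show r * x * e = r * x
    rw [mul_assoc, hx]

/-- right multiplication by an idempotent, as a map onto `Re` -/
def toLe (e : R) (he : e * e = e) : R →ₗ[R] Le e where
  toFun x := ⟨x * e, by show x * e * e = x * e; rw [mul_assoc, he]⟩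
  map_add' a b := Subtype.ext (add_mul a b e)
  map_smul' r a := Subtype.ext (mul_assoc r a e)

theorem Le_projective (e : R) (he : e * e = e) : Module.Projective R (Le e) :=
  Module.Projective.of_split (Le e).subtype (toLe e he) (by
    apply LinearMap.ext
    rintro ⟨x, hx⟩
    exact Subtype.ext hx)

theorem toLe_surjective (e : R) (he : e * e = e) : Function.Surjective (toLe e he) := by
  rintro ⟨x, hx⟩
  exact ⟨x, Subtype.ext hx⟩

theorem Le_finite (e : R) (he : e * e = e) : Module.Finite R (Le e) :=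
  Module.Finite.of_surjective (toLe e he) (toLe_surjective e he)

/-- the part of `I` annihilated by right multiplication by `y` -/
def kerPart (I : Submodule R R) (y : R) : Submodule R R where
  carrier := {x | x ∈ I ∧ x * y = 0}
  zero_mem' := ⟨I.zero_mem, zero_mul y⟩
  add_mem' := by
    rintro a b ⟨h1, h2⟩ ⟨h3, h4⟩
    exact ⟨I.add_mem h1 h3, by rw [add_mul, h2, h4, add_zero]⟩
  smul_mem' := by
    rintro r x ⟨h1, h2⟩
    exact ⟨I.smul_mem r h1, by rw [smul_eq_mul, mul_assoc, h2, mul_zero]⟩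

theorem sub_mem_kerPart {I : Submodule R R} {y : R} (hy : y ∈ I) (hyy : y * y = y) {x : R}
    (hx : x ∈ I) : x - x * y ∈ kerPart I y :=
  ⟨I.sub_mem hx (I.smul_mem x hy), by rw [sub_mul, mul_assoc, hyy, sub_self]⟩

/-- splitting off an idempotent -/
def split {I : Submodule R R} {y : R} (hy : y ∈ I) (hyy : y * y = y) :
    I ≃ₗ[R] Le y × kerPart I y where
  toFun x := (⟨x * y, by show (x : R) * y * y = x * y; rw [mul_assoc, hyy]⟩,
    ⟨x - x * y, sub_mem_kerPart hy hyy x.2⟩)
  invFun p := ⟨p.1 + p.2, I.add_mem (by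
    have h := p.1.2
    have h1 : (p.1 : R) * y = p.1 := h
    rw [← h1]
    exact I.smul_mem _ hy) p.2.2.1⟩
  map_add' a b := by
    apply Prod.ext
    · exact Subtype.ext (add_mul _ _ _)
    · apply Subtype.ext
      show (a : R) + b - (a + b) * y = (a - a * y) + (b - b * y)
      rw [add_mul]; abel
  map_smul' r a := by
    apply Prod.ext
    · exact Subtype.ext (mul_assoc _ _ _)
    · apply Subtype.ext
      show r * (a : R) - (r * a) * y = r * (a - a * y)
      rw [mul_sub, mul_assoc]
  left_inv x := by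
    apply Subtype.ext
    show (x : R) * y + (x - x * y) = x
    abel
  right_inv p := by
    have h1 : (p.1 : R) * y = p.1 := p.1.2
    have h2 : (p.2 : R) * y = 0 := p.2.2.2
    apply Prod.ext
    · apply Subtype.ext
      show ((p.1 : R) + p.2) * y = p.1
      rw [add_mul, h1, h2, add_zero]
    · apply Subtype.ext
      show ((p.1 : R) + p.2) - ((p.1 : R) + p.2) * y = p.2
      rw [add_mul, h1, h2, add_zero]; abel

theorem kerPart_fg {I : Submodule R R} (hI : I.FG) {y : R} (hy : y ∈ I) (hyy : y * y = y) :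
    (kerPart I y).FG := by
  have h1 : Module.Finite R I := Module.Finite.iff_fg.2 hI
  rw [← Module.Finite.iff_fg]
  exact Module.Finite.of_surjective ((LinearMap.snd R _ _).comp (split hy hyy).toLinearMap)
    (Prod.snd_surjective.comp (split hy hyy).surjective)

theorem fp_of_kerPart {I : Submodule R R} {y : R} (hy : y ∈ I) (hyy : y * y = y)
    (h : Module.FinitePresentation R (kerPart I y)) : Module.FinitePresentation R I := by
  have h1 := Le_projective y hyy
  have h2 := Le_finite y hyy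
  have h3 : Module.FinitePresentation R (Le y) := Module.finitePresentation_of_projective _ _
  exact Module.FinitePresentation.of_equiv (split hy hyy).symm

end general

/-! ### Finitely presented ideals -/

theorem eps_mul_eps : eps * eps = eps := by
  apply ext' <;> intros <;> simp [eps]

theorem eps_smul_eq {x : QR} (h1 : x.a1 = 0) (h3 : x.a3 = 0) (hr1 : x.r1 = 0) (hr2 : x.r2 = 0) :
    eps * x = x := by
  apply ext' <;> intros <;> simp [eps, h1, h3, hr1, hr2]

instance : Finite (Le eps) := by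
  have : Function.Injective (fun x : Le eps => (x.1.a2, x.1.a4, x.1.h)) := by
    rintro ⟨x, hx⟩ ⟨y, hy⟩ hxy
    simp only [Prod.mk.injEq] at hxy
    obtain ⟨h1, h2, h3⟩ := hxy
    apply Subtype.ext
    show x = y
    have hx' : x * eps = x := hx
    have hy' : y * eps = y := hy
    rw [← hx', ← hy']
    apply ext' <;> intros <;> simp [eps, h1, h2, h3]
  exact Finite.of_injective _ this

/-- a finitely generated module on which `e₂ + e₄` acts as the identity is finitely presented -/
theorem fp_of_eps {M : Type} [AddCommGroup M] [Module QR M] [Module.Finite QR M]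
    (h : ∀ m : M, eps • m = m) : Module.FinitePresentation QR M := by
  obtain ⟨n, s, hs⟩ := Module.Finite.exists_fin (R := QR) (M := M)
  have h1 := Le_projective eps eps_mul_eps
  have h2 := Le_finite eps eps_mul_eps
  have h3 : Module.FinitePresentation QR (Le eps) := Module.finitePresentation_of_projective _ _
  let φ : (Fin n → Le eps) →ₗ[QR] M :=
    { toFun := fun v => ∑ i, (v i : QR) • s i
      map_add' := fun v w => by simp [add_smul, Finset.sum_add_distrib]
      map_smul' := fun r v => by simp [Finset.smul_sum, mul_smul] }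
  have hφ : Function.Surjective φ := by
    rw [← LinearMap.range_eq_top, eq_top_iff, ← hs, Submodule.span_le]
    rintro _ ⟨i, rfl⟩
    refine ⟨Pi.single i ⟨eps, eps_mul_eps⟩, ?_⟩
    show ∑ j, ((Pi.single i (⟨eps, eps_mul_eps⟩ : Le eps) : Fin n → Le eps) j : QR) • s j = s i
    rw [Finset.sum_eq_single i]
    · rw [Pi.single_eq_same]
      exact h (s i)
    · intro j _ hj
      rw [Pi.single_eq_of_ne hj]
      exact zero_smul _ _
    · intro h; exact absurd (Finset.mem_univ i) h
  apply Module.finitePresentation_of_surjective φ hφ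
  rw [← Module.Finite.iff_fg]
  exact Module.Finite.of_finite

/-! ### The simple module `S₄` has infinite projective dimension -/

/-- the ring homomorphism `x ↦ a₄(x)` -/
noncomputable def a4Hom : QR →+* ZMod 2 where
  toFun x := x.a4
  map_one' := rfl
  map_mul' _ _ := rfl
  map_zero' := rfl
  map_add' _ _ := rfl

/-- the simple module at the vertex `4` -/
def S4 : Type := ZMod 2

instance : AddCommGroup S4 := inferInstanceAs (AddCommGroup (ZMod 2))
noncomputable instance : Module QR S4 := Module.compHom (ZMod 2) a4Hom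

theorem S4_smul (r : QR) (t : ZMod 2) : r • (show S4 from t) = (show S4 from r.a4 * t) := rfl

theorem e4_mul_e4 : e4 * e4 = e4 := by
  apply ext' <;> intros <;> simp [e4]

theorem mem_Le_e4 {x : QR} (hx : x ∈ Le e4) : x = ⟨0, 0, 0, x.a4, x.h, 0, 0, 0, 0, 0, 0, 0, 0, 0⟩ := by
  have h : x * e4 = x := hx
  conv_lhs => rw [← h]
  apply ext' <;> intros <;> simp [e4]

/-- the element `t e₄` -/
def elA (t : ZMod 2) : QR := ⟨0, 0, 0, t, 0, 0, 0, 0, 0, 0, 0, 0, 0, 0⟩
/-- the element `t h` -/
def elH (t : ZMod 2) : QR := ⟨0, 0, 0, 0, t, 0, 0, 0, 0, 0, 0, 0, 0, 0⟩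

theorem elA_mem (t : ZMod 2) : elA t ∈ Le e4 := by
  show elA t * e4 = elA t
  apply ext' <;> intros <;> simp [e4, elA]

theorem elH_mem (t : ZMod 2) : elH t ∈ Le e4 := by
  show elH t * e4 = elH t
  apply ext' <;> intros <;> simp [e4, elH]

theorem elH_add (s t : ZMod 2) : elH (s + t) = elH s + elH t := by
  apply ext' <;> intros <;> simp [elH]

theorem mul_elH (r : QR) (t : ZMod 2) : r * elH t = elH (r.a4 * t) := by
  apply ext' <;> intros <;> simp [elH]

/-- `P₄ → S₄` -/
noncomputable def P4S4 : Le e4 →ₗ[QR] S4 where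
  toFun x := (x : QR).a4
  map_add' _ _ := rfl
  map_smul' _ _ := rfl

theorem P4S4_surjective : Function.Surjective P4S4 := by
  intro t
  exact ⟨⟨elA t, elA_mem t⟩, rfl⟩

/-- the kernel of `P₄ → S₄` is `S₄` -/
noncomputable def kerS4 : S4 ≃ₗ[QR] LinearMap.ker P4S4 where
  toFun t := ⟨⟨elH t, elH_mem t⟩, rfl⟩
  invFun x := (x : Le e4).1.h
  map_add' a b := by
    apply Subtype.ext; apply Subtype.ext
    exact elH_add a b
  map_smul' r a := by
    apply Subtype.ext; apply Subtype.ext
    exact (mul_elH r a).symm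
  left_inv t := rfl
  right_inv x := by
    obtain ⟨⟨x, hx⟩, h4⟩ := x
    apply Subtype.ext; apply Subtype.ext
    have h4' : x.a4 = 0 := h4
    show elH x.h = x
    conv_rhs => rw [mem_Le_e4 hx, h4']
    rfl

theorem S4_not_projective : ¬ Module.Projective QR S4 := by
  intro h
  obtain ⟨s, hs⟩ := Module.projective_lifting_property P4S4 LinearMap.id P4S4_surjective
  have h1 := LinearMap.congr_fun hs (1 : ZMod 2)
  have h2 : ((s (1 : ZMod 2) : Le e4) : QR).a4 = 1 := h1
  have h3 : elH 1 • (show S4 from (1 : ZMod 2)) = 0 := by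
    rw [S4_smul]
    show (0 : ZMod 2) * 1 = 0
    exact zero_mul _
  have h4 := congrArg s h3
  rw [map_smul, map_zero] at h4
  have h5 : (elH 1 * ((s (1 : ZMod 2) : Le e4) : QR)).h = 0 := congrArg (fun z : Le e4 => z.1.h) h4
  rw [mul_h, h2] at h5
  simp [elH] at h5

theorem S4_pd (n : ℕ) : ¬ HasProjectiveDimensionLE (ModuleCat.of QR S4) n := by
  have hp := Le_projective e4 e4_mul_e4
  induction n with
  | zero =>
    rw [← projective_iff_hasProjectiveDimensionLE_zero, ← IsProjective.iff_projective]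
    exact S4_not_projective
  | succ n ih =>
    intro h
    rw [pd_shift P4S4 P4S4_surjective] at h
    apply ih
    exact ModuleCat.hasProjectiveDimensionLE_of_linearEquiv.{0, 0} (M := ModuleCat.of QR _)
      (N := ModuleCat.of QR S4) kerS4.symm n

/-- a module of finite projective dimension does not have `S₄` as a retract -/
theorem no_retract {N : Type} [AddCommGroup N] [Module QR N] (i : S4 →ₗ[QR] N) (p : N →ₗ[QR] S4)
    (hpi : ∀ t, p (i t) = t) (n : ℕ) : ¬ HasProjectiveDimensionLE (ModuleCat.of QR N) n := by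
  intro h
  apply S4_pd n
  let ret : Retract (ModuleCat.of QR S4) (ModuleCat.of QR N) :=
    { i := ModuleCat.ofHom i
      r := ModuleCat.ofHom p
      retract := by
        ext t
        exact hpi t }
  exact ret.hasProjectiveDimensionLT (n + 1)

/-! ### Ideals of infinite projective dimension -/

theorem e1_mul_e1 : e1 * e1 = e1 := by
  apply ext' <;> intros <;> simp [e1]

section infinite
variable (I : Submodule QR QR) (hI3 : ∀ y ∈ I, y.a3 = 0) (x : QR) (hx : x ∈ I) (hx1 : e1 * x = x)
  (c : QR →+ ZMod 2) (hcmul : ∀ r y : QR, y.a3 = 0 → c (r * y) = r.a1 * c y) (hcx : c x = 1)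
  (G : ZMod 2 →+ QR) (hGx : ∀ t, G t * x = 0) (hGe : ∀ t, G t * e1 = G t)
  (hGmul : ∀ (r : QR) t, r * G t = G (r.a4 * t)) (γ : QR →+ ZMod 2)
  (hγmul : ∀ r a : QR, γ (r * a) = r.a4 * γ a + γ r * a.a1) (hγG : ∀ t, γ (G t) = t)

/-- the subideal `{y ∈ I | c(y) = 0}` -/
def sub (hI3 : ∀ y ∈ I, y.a3 = 0) (c : QR →+ ZMod 2)
    (hcmul : ∀ r y : QR, y.a3 = 0 → c (r * y) = r.a1 * c y) : Submodule QR QR where
  carrier := {y | y ∈ I ∧ c y = 0}
  zero_mem' := ⟨I.zero_mem, map_zero c⟩
  add_mem' := by
    rintro a b ⟨h1, h2⟩ ⟨h3, h4⟩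
    exact ⟨I.add_mem h1 h3, by rw [map_add, h2, h4, add_zero]⟩
  smul_mem' := by
    rintro r y ⟨h1, h2⟩
    exact ⟨I.smul_mem r h1, by rw [smul_eq_mul, hcmul r y (hI3 y h1), h2, mul_zero]⟩

/-- the projection onto `I` -/
noncomputable def pres (hx : x ∈ I) :
    (Le e1 × (sub I hI3 c hcmul →₀ QR)) →ₗ[QR] I :=
  LinearMap.coprod
    { toFun := fun a => ⟨a.1 * x, I.smul_mem _ hx⟩
      map_add' := fun a b => Subtype.ext (add_mul _ _ _)
      map_smul' := fun r a => Subtype.ext (mul_assoc _ _ _) }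
    (Finsupp.linearCombination QR fun y : sub I hI3 c hcmul => (⟨y.1, y.2.1⟩ : I))

theorem pres_apply (a : Le e1) (b : sub I hI3 c hcmul →₀ QR) :
    (pres I hI3 x c hcmul hx (a, b) : QR) = a.1 * x +
      (Finsupp.linearCombination QR (fun y : sub I hI3 c hcmul => (⟨y.1, y.2.1⟩ : I)) b : I) := rfl

theorem lc_mem (b : sub I hI3 c hcmul →₀ QR) :
    c ((Finsupp.linearCombination QR (fun y : sub I hI3 c hcmul => (⟨y.1, y.2.1⟩ : I)) b : I) : QR)
      = 0 := by
  induction b using Finsupp.induction_linear with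
  | zero => rw [map_zero]; exact map_zero c
  | add f g hf hg => rw [map_add, Submodule.coe_add, map_add, hf, hg, add_zero]
  | single y r =>
    rw [Finsupp.linearCombination_single]
    show c (r * y.1) = 0
    rw [hcmul r _ (hI3 _ y.2.1), y.2.2, mul_zero]

include hcx hx1 in
theorem pres_surjective : Function.Surjective (pres I hI3 x c hcmul hx) := by
  rintro ⟨y, hy⟩
  have h01 : ∀ t : ZMod 2, t = 0 ∨ t = 1 := by decide
  rcases h01 (c y) with h | h
  · refine ⟨(0, Finsupp.single ⟨y, hy, h⟩ 1), ?_⟩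
    apply Subtype.ext
    rw [pres_apply, Finsupp.linearCombination_single, one_smul]
    show (0 : QR) * x + y = y
    rw [zero_mul, zero_add]
  · have h1 : y - x ∈ sub I hI3 c hcmul := ⟨I.sub_mem hy hx, by rw [map_sub, h, hcx, sub_self]⟩
    refine ⟨(⟨e1, e1_mul_e1⟩, Finsupp.single ⟨y - x, h1⟩ 1), ?_⟩
    apply Subtype.ext
    rw [pres_apply, Finsupp.linearCombination_single, one_smul]
    show e1 * x + (y - x) = y
    rw [hx1]
    abel

include hcx in
theorem ker_a1 (p : LinearMap.ker (pres I hI3 x c hcmul hx)) : (p.1.1 : QR).a1 = 0 := by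
  obtain ⟨⟨a, b⟩, h⟩ := p
  have h1 : (a.1 * x + (Finsupp.linearCombination QR
    (fun y : sub I hI3 c hcmul => (⟨y.1, y.2.1⟩ : I)) b : I) : QR) = 0 :=
    congrArg Subtype.val (LinearMap.mem_ker.1 h)
  have h2 := congrArg c h1
  rw [map_add, lc_mem, add_zero, map_zero, hcmul _ _ (hI3 x hx), hcx, mul_one] at h2
  exact h2

/-- the retraction of the kernel onto `S₄` -/
noncomputable def retr : LinearMap.ker (pres I hI3 x c hcmul hx) →ₗ[QR] S4 where
  toFun p := γ (p.1.1 : QR)
  map_add' p q := map_add γ _ _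
  map_smul' r p := by
    show γ (r * (p.1.1 : QR)) = r.a4 * γ (p.1.1 : QR)
    rw [hγmul, ker_a1 I hI3 x hx c hcmul hcx p, mul_zero, add_zero]

/-- the embedding of `S₄` into the kernel -/
noncomputable def sect : S4 →ₗ[QR] LinearMap.ker (pres I hI3 x c hcmul hx) where
  toFun t := ⟨(⟨G t, hGe t⟩, 0), by
    rw [LinearMap.mem_ker]
    apply Subtype.ext
    rw [pres_apply, map_zero]
    exact (add_zero _).trans (hGx t)⟩
  map_add' s t := by
    apply Subtype.ext
    apply Prod.ext
    · exact Subtype.ext (map_add G s t)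
    · exact (add_zero _).symm
  map_smul' r t := by
    apply Subtype.ext
    apply Prod.ext
    · exact Subtype.ext (hGmul r t).symm
    · exact (smul_zero _).symm

include hI3 hx hx1 hcmul hcx hGx hGe hGmul hγmul hγG in
theorem pd_infinite (n : ℕ) : ¬ HasProjectiveDimensionLE (ModuleCat.of QR I) n := by
  intro h0
  have hp := Le_projective e1 e1_mul_e1
  have h : HasProjectiveDimensionLE (ModuleCat.of QR I) (n + 1) :=
    hasProjectiveDimensionLT_of_ge _ _ _ (Nat.le_succ _)
  rw [pd_shift _ (pres_surjective I hI3 x hx hx1 c hcmul hcx)] at h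
  exact no_retract (sect I hI3 x hx c hcmul G hGx hGe hGmul) (retr I hI3 x hx c hcmul hcx γ hγmul)
    (fun t => hγG t) n h

end infinite

/-- coordinate functionals -/
noncomputable def cr1 : QR →+ ZMod 2 := ⟨⟨fun x => x.r1, rfl⟩, fun _ _ => rfl⟩
noncomputable def cr2 : QR →+ ZMod 2 := ⟨⟨fun x => x.r2, rfl⟩, fun _ _ => rfl⟩
noncomputable def cg1 : QR →+ ZMod 2 := ⟨⟨fun x => x.g1, rfl⟩, fun _ _ => rfl⟩
noncomputable def cg2 : QR →+ ZMod 2 := ⟨⟨fun x => x.g2, rfl⟩, fun _ _ => rfl⟩
noncomputable def cg3 : QR →+ ZMod 2 := ⟨⟨fun x => x.g3, rfl⟩, fun _ _ => rfl⟩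

/-- elements `t g_j` -/
noncomputable def G1 : ZMod 2 →+ QR := ⟨⟨fun t => ⟨0, 0, 0, 0, 0, t, 0, 0, 0, 0, 0, 0, 0, 0⟩, rfl⟩,
  fun s t => by apply ext' <;> intros <;> simp⟩
noncomputable def G2 : ZMod 2 →+ QR := ⟨⟨fun t => ⟨0, 0, 0, 0, 0, 0, t, 0, 0, 0, 0, 0, 0, 0⟩, rfl⟩,
  fun s t => by apply ext' <;> intros <;> simp⟩
noncomputable def G3 : ZMod 2 →+ QR := ⟨⟨fun t => ⟨0, 0, 0, 0, 0, 0, 0, t, 0, 0, 0, 0, 0, 0⟩, rfl⟩,
  fun s t => by apply ext' <;> intros <;> simp⟩

theorem G1_apply (t : ZMod 2) : G1 t = ⟨0, 0, 0, 0, 0, t, 0, 0, 0, 0, 0, 0, 0, 0⟩ := rfl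
theorem G2_apply (t : ZMod 2) : G2 t = ⟨0, 0, 0, 0, 0, 0, t, 0, 0, 0, 0, 0, 0, 0⟩ := rfl
theorem G3_apply (t : ZMod 2) : G3 t = ⟨0, 0, 0, 0, 0, 0, 0, t, 0, 0, 0, 0, 0, 0⟩ := rfl

/-- the element `s r₁ + t r₂` -/
def rr (s t : ZMod 2) : QR := ⟨0, 0, 0, 0, 0, 0, 0, 0, s, t, 0, 0, 0, 0⟩

theorem pd_infinite_of_mem (I : Submodule QR QR) (hI3 : ∀ y ∈ I, y.a3 = 0) (s t : ZMod 2)
    (hst : ¬ (s = 0 ∧ t = 0)) (hx : rr s t ∈ I) (n : ℕ) :
    ¬ HasProjectiveDimensionLE (ModuleCat.of QR I) n := by
  have hx1 : ∀ s t, e1 * rr s t = rr s t := by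
    intro s t
    apply ext' <;> intros <;> simp [e1, rr]
  have hc1 : ∀ r y : QR, y.a3 = 0 → cr1 (r * y) = r.a1 * cr1 y := by
    intro r y h
    show r.a1 * y.r1 + r.r1 * y.a3 = r.a1 * y.r1
    rw [h, mul_zero, add_zero]
  have hc2 : ∀ r y : QR, y.a3 = 0 → cr2 (r * y) = r.a1 * cr2 y := by
    intro r y h
    show r.a1 * y.r2 + r.r2 * y.a3 = r.a1 * y.r2
    rw [h, mul_zero, add_zero]
  have h01 : ∀ t : ZMod 2, t = 0 ∨ t = 1 := by decide
  rcases h01 s with rfl | rfl <;> rcases h01 t with rfl | rfl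
  · exact absurd ⟨rfl, rfl⟩ hst
  · refine pd_infinite I hI3 _ hx (hx1 _ _) cr2 hc2 rfl G2 ?_ ?_ ?_ cg2 (fun _ _ => rfl)
      (fun _ => rfl) n
    · intro t; apply ext' <;> intros <;> simp [G2_apply, rr]
    · intro t; apply ext' <;> intros <;> simp [G2_apply, e1]
    · intro r t; apply ext' <;> intros <;> simp [G2_apply]
  · refine pd_infinite I hI3 _ hx (hx1 _ _) cr1 hc1 rfl G1 ?_ ?_ ?_ cg1 (fun _ _ => rfl)
      (fun _ => rfl) n
    · intro t; apply ext' <;> intros <;> simp [G1_apply, rr]
    · intro t; apply ext' <;> intros <;> simp [G1_apply, e1]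
    · intro r t; apply ext' <;> intros <;> simp [G1_apply]
  · refine pd_infinite I hI3 _ hx (hx1 _ _) cr1 hc1 rfl G3 ?_ ?_ ?_ cg3 (fun _ _ => rfl)
      (fun _ => rfl) n
    · intro t
      apply ext' <;> intros <;> simp [G3_apply, rr]
      right
      decide
    · intro t; apply ext' <;> intros <;> simp [G3_apply, e1]
    · intro r t; apply ext' <;> intros <;> simp [G3_apply]

theorem fp_of_all {I : Submodule QR QR} (hI : I.FG) (h : ∀ x ∈ I, x.a1 = 0 ∧ x.a3 = 0 ∧ x.r1 = 0 ∧ x.r2 = 0) :
    Module.FinitePresentation QR I := by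
  have : Module.Finite QR I := Module.Finite.iff_fg.2 hI
  apply fp_of_eps
  rintro ⟨x, hx⟩
  obtain ⟨h1, h2, h3, h4⟩ := h x hx
  exact Subtype.ext (eps_smul_eq h1 h2 h3 h4)

theorem weakly (n : ℕ) : WeaklyLeeCoherent n QR := by
  intro I hI hpd
  have h01 : ∀ t : ZMod 2, t = 0 ∨ t = 1 := by decide
  by_cases h3 : ∀ y ∈ I, y.a3 = 0
  · by_cases hr : ∀ y ∈ I, y.a1 = 0 → y.r1 = 0 ∧ y.r2 = 0
    · by_cases h1 : ∀ y ∈ I, y.a1 = 0
      · exact fp_of_all hI fun x hx => ⟨h1 x hx, h3 x hx, hr x hx (h1 x hx)⟩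
      · push Not at h1
        obtain ⟨y, hy, hy1⟩ := h1
        have hy1' : y.a1 = 1 := (h01 y.a1).resolve_left hy1
        have hmem : e1 * y ∈ I := I.smul_mem e1 hy
        have hidem : (e1 * y) * (e1 * y) = e1 * y := by
          apply ext' <;> intros <;> simp [e1, hy1', h3 y hy]
        apply fp_of_kerPart hmem hidem
        apply fp_of_all (kerPart_fg hI hmem hidem)
        rintro x ⟨hx, hx0⟩
        have hx1 : x.a1 = 0 := by
          have := congrArg QR.a1 hx0
          simpa [e1, hy1'] using this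
        exact ⟨hx1, h3 x hx, hr x hx hx1⟩
    · exfalso
      push Not at hr
      obtain ⟨y, hy, hy1, hy2⟩ := hr
      refine pd_infinite_of_mem I h3 y.r1 y.r2 (fun h => hy2 h.1 h.2) ?_ _ hpd
      have : rr y.r1 y.r2 = e1 * y := by
        apply ext' <;> intros <;> simp [e1, rr, hy1]
      rw [this]
      exact I.smul_mem e1 hy
  · push Not at h3
    obtain ⟨y, hy, hy3⟩ := h3
    have hy3' : y.a3 = 1 := (h01 y.a3).resolve_left hy3
    have he3 : e3 ∈ I := by
      have : e3 = e3 * y := by
        apply ext' <;> intros <;> simp [e3, hy3']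
      rw [this]
      exact I.smul_mem e3 hy
    have hidem : e3 * e3 = e3 := by
      apply ext' <;> intros <;> simp [e3]
    apply fp_of_kerPart he3 hidem
    have hfg := kerPart_fg hI he3 hidem
    have hJ : ∀ x ∈ kerPart I e3, x.a3 = 0 ∧ x.r1 = 0 ∧ x.r2 = 0 := by
      rintro x ⟨hx, hx0⟩
      refine ⟨?_, ?_, ?_⟩
      · simpa [e3] using congrArg QR.a3 hx0
      · simpa [e3] using congrArg QR.r1 hx0
      · simpa [e3] using congrArg QR.r2 hx0
    by_cases h1 : ∀ x ∈ kerPart I e3, x.a1 = 0
    · exact fp_of_all hfg fun x hx => ⟨h1 x hx, hJ x hx⟩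
    · push Not at h1
      obtain ⟨z, hz, hz1⟩ := h1
      have hz1' : z.a1 = 1 := (h01 z.a1).resolve_left hz1
      obtain ⟨-, hzr1, hzr2⟩ := hJ z hz
      have he1 : e1 ∈ kerPart I e3 := by
        have : e1 = e1 * z := by
          apply ext' <;> intros <;> simp [e1, hz1', hzr1, hzr2]
        rw [this]
        exact (kerPart I e3).smul_mem e1 hz
      apply fp_of_kerPart he1 e1_mul_e1
      apply fp_of_all (kerPart_fg hfg he1 e1_mul_e1)
      rintro x ⟨hx, hx0⟩
      have hx1 : x.a1 = 0 := by simpa [e1] using congrArg QR.a1 hx0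
      exact ⟨hx1, hJ x hx⟩

/-! ### A submodule of `R²` that is not finitely presented -/

/-- the pair `(r₁, r₂)` -/
noncomputable def v : Fin 2 → QR := ![rr 1 0, rr 0 1]

/-- the submodule `K = R (r₁, r₂)` of `R²` -/
noncomputable def K : Submodule QR (Fin 2 → QR) := Submodule.span QR {v}

theorem e1_smul_v : e1 • v = v := by
  ext1 i
  fin_cases i
  · show e1 * rr 1 0 = rr 1 0
    apply ext' <;> intros <;> simp [e1, rr]
  · show e1 * rr 0 1 = rr 0 1
    apply ext' <;> intros <;> simp [e1, rr]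

/-- the surjection `Re₁ → K` -/
noncomputable def toK : Le e1 →ₗ[QR] K where
  toFun a := ⟨(a : QR) • v, Submodule.smul_mem _ _ (Submodule.mem_span_singleton_self v)⟩
  map_add' a b := Subtype.ext (add_smul _ _ _)
  map_smul' r a := Subtype.ext (mul_smul _ _ _)

theorem toK_surjective : Function.Surjective toK := by
  rintro ⟨w, hw⟩
  obtain ⟨r, hr⟩ := Submodule.mem_span_singleton.1 hw
  refine ⟨⟨r * e1, by show r * e1 * e1 = r * e1; rw [mul_assoc, e1_mul_e1]⟩, ?_⟩
  apply Subtype.ext
  show (r * e1) • v = w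
  rw [mul_smul, e1_smul_v, hr]

theorem mem_Le_e1 {x : QR} (hx : x ∈ Le e1) :
    x = ⟨x.a1, 0, 0, 0, 0, x.g1, x.g2, x.g3, 0, 0, 0, 0, 0, x.f⟩ := by
  have h : x * e1 = x := hx
  conv_lhs => rw [← h]
  apply ext' <;> intros <;> simp [e1]

/-- the element with `f`-component `φ` -/
noncomputable def elF (φ : ℕ →₀ ZMod 2) : QR := ⟨0, 0, 0, 0, 0, 0, 0, 0, 0, 0, 0, 0, 0, φ⟩

theorem ker_toK {x : Le e1} : x ∈ LinearMap.ker toK ↔ (x : QR) = elF (x : QR).f := by
  rw [LinearMap.mem_ker]
  constructor
  · intro h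
    have h1 : (x : QR) • v = 0 := congrArg Subtype.val h
    have h2 : (x : QR) * rr 1 0 = 0 := congrFun h1 0
    have h3 : (x : QR) * rr 0 1 = 0 := congrFun h1 1
    have k1 : (x : QR).a1 = 0 := by simpa [rr] using congrArg QR.r1 h2
    have k2 : (x : QR).g2 = 0 := by simpa [rr] using congrArg QR.u2 h2
    have k3 : (x : QR).g3 = 0 := by simpa [rr] using congrArg QR.u3 h2
    have k4 : (x : QR).g1 = 0 := by simpa [rr] using congrArg QR.u1 h3
    conv_lhs => rw [mem_Le_e1 x.2, k1, k2, k3, k4]
    rfl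
  · intro h
    apply Subtype.ext
    show (x : QR) • v = 0
    rw [h]
    ext1 i
    fin_cases i
    · show elF _ * rr 1 0 = 0
      apply ext' <;> intros <;> simp [elF, rr]
    · show elF _ * rr 0 1 = 0
      apply ext' <;> intros <;> simp [elF, rr]

theorem elF_mem (φ : ℕ →₀ ZMod 2) : elF φ ∈ Le e1 := by
  show elF φ * e1 = elF φ
  apply ext' <;> intros <;> simp [e1, elF]

/-- `f_i` as an element of the kernel -/
noncomputable def fk (φ : ℕ →₀ ZMod 2) : LinearMap.ker toK := ⟨⟨elF φ, elF_mem φ⟩, ker_toK.2 rfl⟩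

/-- `t e₂` -/
def elB (t : ZMod 2) : QR := ⟨0, t, 0, 0, 0, 0, 0, 0, 0, 0, 0, 0, 0, 0⟩

/-- a section of the canonical presentation of the kernel -/
noncomputable def secK : LinearMap.ker toK →ₗ[QR] (LinearMap.ker toK →₀ QR) where
  toFun x := (x.1.1 : QR).f.sum fun i t => Finsupp.single (fk (Finsupp.single i 1)) (elB t)
  map_add' x y := by
    show ((x.1.1 : QR).f + (y.1.1 : QR).f).sum _ = _
    rw [Finsupp.sum_add_index']
    · intro i
      rw [show elB 0 = 0 from rfl, Finsupp.single_zero]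
    · intro i s t
      rw [← Finsupp.single_add]
      congr 1
  map_smul' r x := by
    have h : (x.1.1 : QR).a1 = 0 := by
      rw [ker_toK.1 x.2]; rfl
    show (r.a2 • (x.1.1 : QR).f + (x.1.1 : QR).a1 • r.f).sum _ = _
    rw [h, zero_smul, add_zero, Finsupp.sum_smul_index, RingHom.id_apply, Finsupp.smul_sum]
    · apply Finsupp.sum_congr
      intro i _
      rw [Finsupp.smul_single]
      congr 1
      apply ext' <;> intros <;> simp [elB]
    · intro i
      rw [show elB 0 = 0 from rfl, Finsupp.single_zero]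

theorem sum_fk (φ : ℕ →₀ ZMod 2) :
    ((φ.sum fun i t => elB t • fk (Finsupp.single i 1) : LinearMap.ker toK) : Le e1).1 = elF φ := by
  induction φ using Finsupp.induction_linear with
  | zero => rfl
  | add f g hf hg =>
    rw [Finsupp.sum_add_index', Submodule.coe_add, Submodule.coe_add, hf, hg]
    · apply ext' <;> intros <;> simp [elF]
    · intro i
      rw [show elB 0 = 0 from rfl, zero_smul]
    · intro i s t
      rw [← add_smul]
      congr 1
  | single i t =>
    rw [Finsupp.sum_single_index (by rw [show elB 0 = 0 from rfl, zero_smul])]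
    show elB t * elF (Finsupp.single i 1) = elF (Finsupp.single i t)
    apply ext' <;> intros <;> simp [elB, elF]

theorem projective_ker : Module.Projective QR (LinearMap.ker toK) := by
  rw [Module.projective_def']
  refine ⟨secK, ?_⟩
  apply LinearMap.ext
  intro x
  show Finsupp.linearCombination QR id
    ((x.1.1 : QR).f.sum fun i t => Finsupp.single (fk (Finsupp.single i 1)) (elB t)) = x
  rw [map_finsuppSum]
  simp only [Finsupp.linearCombination_single, id]
  apply Subtype.ext
  apply Subtype.ext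
  rw [sum_fk]
  exact (ker_toK.1 x.2).symm

theorem K_pd : HasProjectiveDimensionLE (ModuleCat.of QR K) 1 := by
  have hp := Le_projective e1 e1_mul_e1
  rw [pd_shift toK toK_surjective 0]
  have h := projective_ker
  rw [← projective_iff_hasProjectiveDimensionLE_zero]
  exact projective_of

theorem K_not_fp : ¬ Module.FinitePresentation QR K := by
  intro h
  have hf := Le_finite e1 e1_mul_e1
  obtain ⟨s, hs⟩ := Module.FinitePresentation.fg_ker toK toK_surjective
  let E := s.sup (fun y => (y : QR).f.support.sup id) + 1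
  have key : ∀ x ∈ LinearMap.ker toK, (x : QR).a1 = 0 ∧ (x : QR).f E = 0 := by
    intro x hx
    rw [← hs] at hx
    induction hx using Submodule.span_induction with
    | mem x hx =>
      have hx' : x ∈ LinearMap.ker toK := by rw [← hs]; exact Submodule.subset_span hx
      refine ⟨by rw [ker_toK.1 hx']; rfl, ?_⟩
      by_contra hne
      have h1 : E ∈ (x : QR).f.support := Finsupp.mem_support_iff.2 hne
      have h2 : E ≤ (x : QR).f.support.sup id := Finset.le_sup (f := id) h1
      have h3 : (x : QR).f.support.sup id ≤ s.sup (fun y => (y : QR).f.support.sup id) :=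
        Finset.le_sup (f := fun y : Le e1 => (y : QR).f.support.sup id) hx
      omega
    | zero => exact ⟨rfl, rfl⟩
    | add x y _ _ hx hy =>
      refine ⟨?_, ?_⟩
      · show (x : QR).a1 + (y : QR).a1 = 0
        rw [hx.1, hy.1, add_zero]
      · show ((x : QR).f + (y : QR).f) E = 0
        rw [Finsupp.add_apply, hx.2, hy.2, add_zero]
    | smul r x _ hx =>
      refine ⟨?_, ?_⟩
      · show r.a1 * (x : QR).a1 = 0
        rw [hx.1, mul_zero]
      · show (r.a2 • (x : QR).f + (x : QR).a1 • r.f) E = 0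
        rw [Finsupp.add_apply, Finsupp.smul_apply, Finsupp.smul_apply, hx.2, hx.1, smul_zero,
          zero_smul, add_zero]
  have h1 := (key _ (fk (Finsupp.single E 1)).2).2
  have h2 : (Finsupp.single E (1 : ZMod 2)) E = 0 := h1
  rw [Finsupp.single_eq_same] at h2
  exact one_ne_zero h2

/-- **Weakly Lee `n`-coherent rings need not be Lee `n`-coherent**: there is a ring that, for every
finite `n ≥ 2`, is weakly Lee `n`-coherent but not Lee `n`-coherent. -/
theorem result : ∃ (R : Type) (_ : Ring R), ∀ n : ℕ, 2 ≤ n →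
    WeaklyLeeCoherent n R ∧ ¬ LeeCoherent n R := by
  refine ⟨QR, inferInstance, fun n hn => ⟨weakly n, fun h => ?_⟩⟩
  have h1 : HasProjectiveDimensionLE (ModuleCat.of QR K) 1 := K_pd
  exact K_not_fp (h 2 (by norm_num) K ⟨{v}, by simp [K]⟩
    (hasProjectiveDimensionLT_of_ge _ 2 _ (by omega)))

end Pool.Agent.Results.MP_0b9bd1_al.WeaklyNotLee
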